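import Pool.Agent.Run7.h838.KO.Rate

/-! Limits of the exponents. -/

open Filter Set
open scoped Topology

namespace Run7.h838.KO

open Pool.Agent.H818R2

lemma lim_cmp2 {u v : ℕ → ℝ} {B ε : ℝ} (hu : ∀ᶠ n in atTop, 0 ≤ u n)
    (hv : ∀ᶠ n in atTop, v n ≤ B) (h1 : ∀ᶠ n in atTop, u n ≤ v n)
    (h2 : ∀ᶠ n in atTop, v n ≤ u n + ε) :
    (limsup u atTop ≤ limsup v atTop ∧ limsup v atTop ≤ limsup u atTop + ε) ∧
    (liminf u atTop ≤ liminf v atTop ∧ liminf v atTop ≤ liminf u atTop + ε) := by
  have bu : IsBoundedUnder (· ≥ ·) atTop u := isBoundedUnder_of_eventually_ge hu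
  have bu' : IsBoundedUnder (· ≤ ·) atTop u := by
    apply isBoundedUnder_of_eventually_le (a := B)
    filter_upwards [hv, h1] with n hn hn1
    exact hn1.trans hn
  have bv : IsBoundedUnder (· ≥ ·) atTop v := by
    apply isBoundedUnder_of_eventually_ge (a := 0)
    filter_upwards [hu, h1] with n hn hn1
    exact hn.trans hn1
  have bv' : IsBoundedUnder (· ≤ ·) atTop v := isBoundedUnder_of_eventually_le hv
  refine ⟨⟨limsup_le_limsup h1 bu.isCoboundedUnder_le bv', ?_⟩,
    liminf_le_liminf h1 bu bv'.isCoboundedUnder_ge, ?_⟩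
  · apply le_of_forall_pos_le_add
    intro c hc
    have h3 := eventually_lt_of_limsup_lt (show limsup u atTop < limsup u atTop + c by linarith) bu'
    apply limsup_le_of_le bv.isCoboundedUnder_le
    filter_upwards [h2, h3] with n h3 h4
    linarith
  · have h4 : liminf v atTop - ε ≤ liminf u atTop := by
      apply le_of_forall_lt
      intro c hc
      have h1 : c + ε < liminf v atTop := by linarith
      obtain ⟨c', hc', hc''⟩ := exists_between h1
      have h3 := eventually_lt_of_lt_liminf hc'' bv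
      refine lt_of_lt_of_le (show c < c' - ε by linarith) ?_
      apply le_liminf_of_le bu'.isCoboundedUnder_ge
      filter_upwards [h3, h2] with n h3 h4
      linarith
    linarith

theorem lims {θ : ℝ} (hθ : 0 < θ) (hθ2 : θ < Real.pi / 2) {m : ℕ} (hm : 12 ≤ m) :
    (limsup (orbRate θ m) atTop ≤ limsup (codeRate θ) atTop ∧
      limsup (codeRate θ) atTop ≤ limsup (orbRate θ m) atTop + err θ m) ∧
    (liminf (orbRate θ m) atTop ≤ liminf (codeRate θ) atTop ∧
      liminf (codeRate θ) atTop ≤ liminf (orbRate θ m) atTop + err θ m) := by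
  have hs : 0 < Real.sin (θ / 2) :=
    Real.sin_pos_of_pos_of_lt_pi (by linarith) (by linarith [Real.pi_pos])
  apply lim_cmp2 (B := Real.logb 2 ((1 + 2 * Real.sin (θ / 2)) / Real.sin (θ / 2)))
  · filter_upwards [eventually_gt_atTop 0] with n hn
    exact (orbRate_le hs hn (by omega)).1
  · exact Eventually.of_forall (codeRate_le hs)
  · filter_upwards [eventually_gt_atTop 0] with n hn
    exact (orbRate_le hs hn (by omega)).2
  · exact rate_close hθ hθ2 hm

/-- the error tends to zero -/
lemma err_tendsto (θ : ℝ) : Tendsto (err θ) atTop (𝓝 0) := by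
  have h1 : Tendsto (fun x : ℝ => (5 + 5 / (2 * Real.sin (θ / 2))) * x ^ (-(2 / 3) : ℝ) +
      2 * (Real.log x / x ^ (2 / 3 : ℝ))) atTop (𝓝 ((5 + 5 / (2 * Real.sin (θ / 2))) * 0 +
      2 * 0)) := by
    apply Tendsto.add
    · exact (tendsto_rpow_neg_atTop (by norm_num)).const_mul _
    · apply Tendsto.const_mul
      exact (isLittleO_log_rpow_atTop (by norm_num : (0 : ℝ) < 2 / 3)).tendsto_div_nhds_zero
  rw [mul_zero, mul_zero, add_zero] at h1
  have h2 := h1.comp (tendsto_natCast_atTop_atTop (R := ℝ))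
  refine h2.congr' ?_
  filter_upwards [eventually_gt_atTop 0] with m hm
  have hm' : (0 : ℝ) < m := by exact_mod_cast hm
  simp only [Function.comp_apply, err]
  rw [Real.rpow_neg hm'.le]
  ring

theorem tendsto_lims {θ : ℝ} (hθ : 0 < θ) (hθ2 : θ < Real.pi / 2) :
    Tendsto (fun m => limsup (orbRate θ m) atTop) atTop (𝓝 (limsup (codeRate θ) atTop)) ∧
    Tendsto (fun m => liminf (orbRate θ m) atTop) atTop (𝓝 (liminf (codeRate θ) atTop)) := by
  have h0 := err_tendsto θ
  constructor
  · have h1 : Tendsto (fun m => limsup (codeRate θ) atTop - err θ m) atTop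
        (𝓝 (limsup (codeRate θ) atTop)) := by
      simpa using tendsto_const_nhds.sub h0
    refine tendsto_of_tendsto_of_tendsto_of_le_of_le' h1 tendsto_const_nhds ?_ ?_
    · filter_upwards [eventually_ge_atTop 12] with m hm
      linarith [(lims hθ hθ2 hm).1.2]
    · filter_upwards [eventually_ge_atTop 12] with m hm
      exact (lims hθ hθ2 hm).1.1
  · have h1 : Tendsto (fun m => liminf (codeRate θ) atTop - err θ m) atTop
        (𝓝 (liminf (codeRate θ) atTop)) := by
      simpa using tendsto_const_nhds.sub h0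
    refine tendsto_of_tendsto_of_tendsto_of_le_of_le' h1 tendsto_const_nhds ?_ ?_
    · filter_upwards [eventually_ge_atTop 12] with m hm
      linarith [(lims hθ hθ2 hm).2.2]
    · filter_upwards [eventually_ge_atTop 12] with m hm
      exact (lims hθ hθ2 hm).2.1

end Run7.h838.KO
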