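import Pool.Agent.H818R2.Kiss4

/-! Spherical codes of two angles: a code of angle `θ` of `ℝⁿ` contains a large subset in a ball of
radius `r = sin (θ/2) / sin (θ'/2) < 1`, which lifts to a code of angle `θ'` of `ℝⁿ⁺¹`. -/

open MeasureTheory Metric Filter Set
open scoped Topology InnerProductSpace

namespace Run7.h838.KO

open Pool.Agent.H818R2

/-- Euclidean space -/
abbrev E (n : ℕ) := EuclideanSpace ℝ (Fin n)

/-- separated points of a ball lift to a spherical code one dimension higher -/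
lemma lift_card {n : ℕ} [NeZero n] {θ r : ℝ} (hs : 0 < Real.sin (θ / 2)) (hr : 0 < r)
    (P : Finset (E n)) (h1 : ∀ x ∈ P, ‖x‖ ≤ r)
    (h2 : ∀ x ∈ P, ∀ y ∈ P, x ≠ y → 2 * r * Real.sin (θ / 2) ≤ ‖x - y‖) :
    P.card ≤ sphMax (n + 1) θ := by
  classical
  have hs0 : 0 < 1 / r := by positivity
  set s := 1 / r with hsdef
  set g : WithLp 2 (EuclideanSpace ℝ (Fin n) × ℝ) ≃ₗᵢ[ℝ] EuclideanSpace ℝ (Fin (n + 1)) :=
    ((stdOrthonormalBasis ℝ (WithLp 2 (EuclideanSpace ℝ (Fin n) × ℝ))).reindex (finCongr (by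
      rw [finrank_withLp, finrank_euclideanSpace_fin, Module.finrank_self]))).repr with hg
  set lift : EuclideanSpace ℝ (Fin n) → EuclideanSpace ℝ (Fin (n + 1)) :=
    fun x => g (WithLp.toLp 2 (s • x, √(1 - ‖s • x‖ ^ 2))) with hlift
  have hinj : Function.Injective lift := by
    intro x y hxy
    have h1 := g.injective hxy
    have h2 : s • x = s • y := congrArg (fun p => p.fst) h1
    exact smul_right_injective _ hs0.ne' h2
  have hunit : ∀ x ∈ P, ‖lift x‖ = 1 := by
    intro x hx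
    have h1 : ‖s • x‖ ≤ 1 := by
      have := h1 x hx
      rw [norm_smul, Real.norm_of_nonneg hs0.le]
      calc s * ‖x‖ ≤ s * r := mul_le_mul_of_nonneg_left this hs0.le
        _ = 1 := by rw [hsdef]; field_simp
    have h2 : 0 ≤ 1 - ‖s • x‖ ^ 2 := by nlinarith [norm_nonneg (s • x)]
    rw [hlift]
    simp only [LinearIsometryEquiv.norm_map]
    have h3 := WithLp.prod_norm_sq_eq_of_L2 (WithLp.toLp 2 (s • x, √(1 - ‖s • x‖ ^ 2)))
    have h4 : ‖WithLp.toLp 2 (s • x, √(1 - ‖s • x‖ ^ 2))‖ ^ 2 =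
        ‖s • x‖ ^ 2 + ‖√(1 - ‖s • x‖ ^ 2)‖ ^ 2 := h3
    rw [Real.norm_eq_abs, sq_abs, Real.sq_sqrt h2] at h4
    have h5 : ‖WithLp.toLp 2 (s • x, √(1 - ‖s • x‖ ^ 2))‖ ^ 2 = 1 := by rw [h4]; ring
    nlinarith [norm_nonneg (WithLp.toLp 2 (s • x, √(1 - ‖s • x‖ ^ 2)))]
  have hcode : IsSphCode (n + 1) θ (P.image lift) := by
    constructor
    · intro u hu
      obtain ⟨x, hx, rfl⟩ := Finset.mem_image.1 hu
      exact hunit x hx
    · intro u hu v hv huv
      obtain ⟨x, hx, rfl⟩ := Finset.mem_image.1 hu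
      obtain ⟨y, hy, rfl⟩ := Finset.mem_image.1 hv
      have hxy : x ≠ y := fun h => huv (by rw [h])
      have h1 := norm_sub_sq_real (lift x) (lift y)
      rw [hunit x hx, hunit y hy, ← dist_eq_norm, hlift] at h1
      simp only [LinearIsometryEquiv.dist_map] at h1
      have h2' : dist (WithLp.toLp 2 (s • x, √(1 - ‖s • x‖ ^ 2)))
          (WithLp.toLp 2 (s • y, √(1 - ‖s • y‖ ^ 2))) ^ 2 =
          dist (s • x) (s • y) ^ 2 + dist (√(1 - ‖s • x‖ ^ 2)) (√(1 - ‖s • y‖ ^ 2)) ^ 2 :=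
        dist_sq (WithLp.toLp 2 (s • x, √(1 - ‖s • x‖ ^ 2)))
          (WithLp.toLp 2 (s • y, √(1 - ‖s • y‖ ^ 2)))
      have h3 : dist (s • x) (s • y) = s * dist x y := by
        rw [dist_smul₀, Real.norm_of_nonneg hs0.le]
      have h4 := h2 x hx y hy hxy
      rw [← dist_eq_norm] at h4
      have h6 : 2 * Real.sin (θ / 2) ≤ s * dist x y := by
        calc 2 * Real.sin (θ / 2) = s * (2 * r * Real.sin (θ / 2)) := by
              rw [hsdef]; field_simp
          _ ≤ _ := mul_le_mul_of_nonneg_left h4 hs0.le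
      have h5 : (2 * Real.sin (θ / 2)) ^ 2 ≤ (s * dist x y) ^ 2 :=
        pow_le_pow_left₀ (by positivity) h6 2
      rw [cos_eq]
      rw [h2', h3] at h1
      change ⟪g _, g _⟫_ℝ ≤ _
      nlinarith [sq_nonneg (dist (√(1 - ‖s • x‖ ^ 2)) (√(1 - ‖s • y‖ ^ 2)))]
  have h1 := le_sphMax hs hcode
  rwa [Finset.card_image_of_injective _ hinj] at h1

/-- averaging over the centre of the ball -/
lemma avg {n : ℕ} (P : Finset (E n)) {a r V : ℝ} (ha : 0 ≤ a) {N : ℕ}
    (hN : ∀ z : E n, (P.filter (fun x => dist z x ≤ r)).card ≤ N)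
    (hV : ∀ u ∈ P, V ≤ volume.real (closedBall (0 : E n) a ∩ closedBall u r)) :
    P.card * V ≤ N * (a ^ n * vb (E n)) := by
  classical
  have hm : ∀ u : E n, MeasurableSet (closedBall (0 : E n) a ∩ closedBall u r) := fun u =>
    measurableSet_closedBall.inter measurableSet_closedBall
  have hfin : ∀ u : E n, volume (closedBall (0 : E n) a ∩ closedBall u r) ≠ ⊤ := fun u =>
    ((measure_mono inter_subset_left).trans_lt measure_closedBall_lt_top).ne
  have hint : ∀ u ∈ P, Integrable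
      (indicator (closedBall (0 : E n) a ∩ closedBall u r) (fun _ => (1 : ℝ))) volume := by
    intro u _
    exact (integrableOn_const (hfin u)).integrable_indicator (hm u)
  have h1 : ∫ z, ∑ u ∈ P, indicator (closedBall (0 : E n) a ∩ closedBall u r)
      (fun _ => (1 : ℝ)) z ≤ ∫ z, indicator (closedBall (0 : E n) a) (fun _ => (N : ℝ)) z := by
    apply integral_mono (integrable_finsetSum _ hint)
    · exact (integrableOn_const measure_closedBall_lt_top.ne).integrable_indicator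
        measurableSet_closedBall
    · intro z
      by_cases hz : z ∈ closedBall (0 : E n) a
      · rw [indicator_of_mem hz]
        have e1 : ∑ u ∈ P, indicator (closedBall (0 : E n) a ∩ closedBall u r)
            (fun _ => (1 : ℝ)) z = (P.filter (fun x => dist z x ≤ r)).card := by
          rw [Finset.card_filter, Nat.cast_sum]
          apply Finset.sum_congr rfl
          intro u _
          by_cases h : dist z u ≤ r
          · have h' : z ∈ closedBall (0 : E n) a ∩ closedBall u r := ⟨hz, h⟩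
            rw [indicator_of_mem h', if_pos h]; simp
          · have h' : z ∉ closedBall (0 : E n) a ∩ closedBall u r := fun h' => h h'.2
            rw [indicator_of_notMem h', if_neg h]; simp
        simp only [e1]
        exact_mod_cast hN z
      · rw [indicator_of_notMem hz]
        apply le_of_eq
        apply Finset.sum_eq_zero
        intro u _
        exact indicator_of_notMem (fun h => hz h.1) _
  rw [integral_finsetSum _ hint, integral_indicator_const _ measurableSet_closedBall,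
    vol_closedBall _ ha, smul_eq_mul, finrank_euclideanSpace_fin] at h1
  have h2 : P.card * V ≤ ∑ u ∈ P, ∫ z, indicator (closedBall (0 : E n) a ∩ closedBall u r)
      (fun _ => (1 : ℝ)) z := by
    rw [← nsmul_eq_mul]
    apply Finset.card_nsmul_le_sum
    intro u hu
    rw [integral_indicator_const _ (hm u), smul_eq_mul, mul_one]
    exact hV u hu
  linarith

/-- volume of the intersection of a small ball about `0` and a ball about a unit vector -/
lemma lens_vol {n : ℕ} {r κ : ℝ} (hr : 0 < r) (hκ : κ = 1 - r ^ 2) (hr1 : r < 1) (hn : 0 < n)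
    {u : E n} (hu : ‖u‖ = 1) {a : ℝ} (ha0 : 0 ≤ a)
    (ha : a ^ 2 = (κ + κ * (1 - κ) / n) ^ 2 + κ * (1 - κ)) :
    κ * (1 - κ) / n * (√(κ * (1 - κ))) ^ (n - 1) * (vb (E n) / 2) ≤
      volume.real (closedBall (0 : E n) a ∩ closedBall u r) := by
  have hκ0 : 0 < κ := by nlinarith
  have hκ1 : 0 < 1 - κ := by rw [hκ]; nlinarith [sq_nonneg r, pow_pos hr 2]
  have hn' : (1 : ℝ) ≤ n := by exact_mod_cast hn
  have hn0 : (0 : ℝ) < n := by linarith
  set τ := κ * (1 - κ) / n with hτ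
  have hτ0 : 0 < τ := by positivity
  have hτ1 : τ ≤ 1 - κ := by
    rw [hτ, div_le_iff₀ hn0]
    nlinarith
  have h := cyl_vol (E := E n) hu (a := κ) (b := κ + τ) (ρ := √(κ * (1 - κ))) (by linarith)
    (Real.sqrt_nonneg _)
  rw [finrank_euclideanSpace_fin, add_sub_cancel_left] at h
  refine h.trans ?_
  apply measureReal_mono
  · rintro z ⟨⟨h1, h2⟩, h3⟩
    rw [Real.sq_sqrt (by positivity)] at h3
    have h4 : ‖z‖ ^ 2 ≤ a ^ 2 := by
      rw [ha]
      have : ⟪u, z⟫_ℝ ^ 2 ≤ (κ + τ) ^ 2 := by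
        apply pow_le_pow_left₀ (by linarith) h2
      linarith
    have h5 : ‖z - u‖ ^ 2 ≤ r ^ 2 := by
      rw [norm_sub_sq_real, hu, real_inner_comm]
      have : r ^ 2 = 1 - κ := by rw [hκ]; ring
      rw [this]
      nlinarith
    constructor
    · rw [mem_closedBall_zero_iff]
      exact le_of_sq_le_sq h4 ha0
    · rw [mem_closedBall, dist_eq_norm]
      exact le_of_sq_le_sq h5 hr.le
  · exact ((measure_mono inter_subset_left).trans_lt measure_closedBall_lt_top).ne

/-- **codes of two angles** -/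
theorem angle_shift {n : ℕ} (hn : 0 < n) {θ θ' r : ℝ} (hs : 0 < Real.sin (θ / 2))
    (hs' : Real.sin (θ / 2) < Real.sin (θ' / 2)) (hr : r = Real.sin (θ / 2) / Real.sin (θ' / 2)) :
    (sphMax n θ : ℝ) * (√(1 - r ^ 2) * r ^ (n + 1)) ≤ 4 * n * sphMax (n + 1) θ' := by
  classical
  have : NeZero n := ⟨hn.ne'⟩
  have hs0' : 0 < Real.sin (θ' / 2) := hs.trans hs'
  have hr0 : 0 < r := by rw [hr]; positivity
  have hr1 : r < 1 := by rw [hr, div_lt_one hs0']; exact hs'
  have hn' : (1 : ℝ) ≤ n := by exact_mod_cast hn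
  have hn0 : (0 : ℝ) < n := by linarith
  set κ : ℝ := 1 - r ^ 2 with hκ
  have hκ0 : 0 < κ := by nlinarith
  have hκ1 : 0 < 1 - κ := by rw [hκ]; nlinarith [sq_nonneg r, pow_pos hr0 2]
  have hκr : 1 - κ = r ^ 2 := by rw [hκ]; ring
  obtain ⟨P, hP, hPc⟩ := Nat.sSup_mem (sph_nonempty n θ) (sph_bdd hs)
  change P.card = sphMax n θ at hPc
  set a : ℝ := √((κ + κ * (1 - κ) / n) ^ 2 + κ * (1 - κ)) with ha
  have ha0 : 0 ≤ a := Real.sqrt_nonneg _
  have ha2 : a ^ 2 = (κ + κ * (1 - κ) / n) ^ 2 + κ * (1 - κ) := Real.sq_sqrt (by positivity)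
  have hN : ∀ z : E n, (P.filter (fun x => dist z x ≤ r)).card ≤ sphMax (n + 1) θ' := by
    intro z
    have h1 := lift_card (θ := θ') hs0' hr0 ((P.filter (fun x => dist z x ≤ r)).image
      (fun x => x - z)) (by
        intro x hx
        obtain ⟨y, hy, rfl⟩ := Finset.mem_image.1 hx
        rw [← dist_eq_norm, dist_comm]
        exact (Finset.mem_filter.1 hy).2) (by
        intro x hx y hy hxy
        obtain ⟨x', hx', rfl⟩ := Finset.mem_image.1 hx
        obtain ⟨y', hy', rfl⟩ := Finset.mem_image.1 hy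
        have hne : x' ≠ y' := fun h => hxy (by rw [h])
        have hx1 := (Finset.mem_filter.1 hx').1
        have hy1 := (Finset.mem_filter.1 hy').1
        have h3 := hP.2 x' hx1 y' hy1 hne
        rw [cos_eq] at h3
        have h4 := norm_sub_sq_real x' y'
        rw [hP.1 x' hx1, hP.1 y' hy1] at h4
        rw [sub_sub_sub_cancel_right]
        apply le_of_sq_le_sq _ (norm_nonneg _)
        have h5 : r * Real.sin (θ' / 2) = Real.sin (θ / 2) := by rw [hr]; field_simp
        calc (2 * r * Real.sin (θ' / 2)) ^ 2 = 4 * (r * Real.sin (θ' / 2)) ^ 2 := by ring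
          _ = 4 * Real.sin (θ / 2) ^ 2 := by rw [h5]
          _ ≤ _ := by linarith)
    rwa [Finset.card_image_of_injective _ sub_left_injective] at h1
  have h1 := avg P ha0 hN (fun u hu => lens_vol hr0 hκ hr1 hn (hP.1 u hu) ha0 ha2)
  have hv := vb_pos (E := E n)
  -- the radius `a`
  have ha3 : a ^ 2 ≤ κ * (1 + 1 / n) := by
    rw [ha2]
    have e1 : (κ + κ * (1 - κ) / n) ^ 2 = κ ^ 2 + 2 * κ ^ 2 * (1 - κ) * (1 / n) +
      κ ^ 2 * (1 - κ) ^ 2 * (1 / n) ^ 2 := by field_simp; ring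
    have e2 : (1 / (n : ℝ)) ^ 2 ≤ 1 / n := by
      have : 1 / (n : ℝ) ≤ 1 := by rw [div_le_one hn0]; exact hn'
      have h0 : 0 ≤ 1 / (n : ℝ) := by positivity
      nlinarith
    have e3 : κ ^ 2 * (1 - κ) ^ 2 * (1 / (n : ℝ)) ^ 2 ≤ κ ^ 2 * (1 - κ) * (1 / n) := by
      have h0 : 0 ≤ 1 / (n : ℝ) := by positivity
      calc κ ^ 2 * (1 - κ) ^ 2 * (1 / (n : ℝ)) ^ 2 ≤ κ ^ 2 * (1 - κ) ^ 2 * (1 / n) :=
            mul_le_mul_of_nonneg_left e2 (by positivity)
        _ ≤ κ ^ 2 * (1 - κ) * (1 / n) := by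
            apply mul_le_mul_of_nonneg_right _ h0
            apply mul_le_mul_of_nonneg_left _ (by positivity)
            nlinarith
    have e4 : 3 * κ * (1 - κ) ≤ 1 := by nlinarith [sq_nonneg (κ - 1 / 2)]
    have h0 : 0 ≤ 1 / (n : ℝ) := by positivity
    have e5 : 3 * κ ^ 2 * (1 - κ) * (1 / (n : ℝ)) ≤ κ * (1 / n) := by
      apply mul_le_mul_of_nonneg_right _ h0
      nlinarith
    rw [e1]
    nlinarith
  have ha4 : a ^ n ≤ 2 * √κ ^ n := by
    apply le_of_sq_le_sq _ (by positivity)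
    have e6 : (a ^ n) ^ 2 = (a ^ 2) ^ n := by rw [← pow_mul, ← pow_mul, mul_comm]
    have e7 : (√κ ^ n) ^ 2 = κ ^ n := by
      rw [← pow_mul, mul_comm, pow_mul, Real.sq_sqrt hκ0.le]
    rw [e6, mul_pow, e7]
    calc (a ^ 2) ^ n ≤ (κ * (1 + 1 / n)) ^ n := pow_le_pow_left₀ (by positivity) ha3 n
      _ = κ ^ n * (1 + 1 / n) ^ n := mul_pow _ _ _
      _ ≤ κ ^ n * 4 := by
          apply mul_le_mul_of_nonneg_left _ (by positivity)
          calc (1 + 1 / (n : ℝ)) ^ n ≤ (Real.exp (1 / n)) ^ n := by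
                apply pow_le_pow_left₀ (by positivity)
                rw [add_comm]
                exact Real.add_one_le_exp _
            _ = Real.exp 1 := by
                rw [← Real.exp_nat_mul]; congr 1; field_simp
            _ ≤ 4 := by have := Real.exp_one_lt_d9; linarith
      _ = _ := by ring
  have hsq : √(κ * (1 - κ)) = √κ * r := by
    rw [hκr, Real.sqrt_mul hκ0.le, Real.sqrt_sq hr0.le]
  rw [hsq] at h1
  have hk : 0 < √κ := Real.sqrt_pos.2 hκ0
  obtain ⟨m, rfl⟩ : ∃ m, n = m + 1 := ⟨n - 1, by omega⟩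
  rw [Nat.add_sub_cancel] at h1
  set N : ℝ := (sphMax (m + 1 + 1) θ' : ℝ) with hNdef
  have hN0 : 0 ≤ N := Nat.cast_nonneg _
  set c : ℝ := ((m + 1 : ℕ) : ℝ) with hc
  -- cancel the volume of the unit ball
  have h2 : (P.card : ℝ) * (κ * (1 - κ) / c * (√κ * r) ^ m) ≤ 4 * N * √κ ^ (m + 1) := by
    have h3 : (P.card : ℝ) * (κ * (1 - κ) / c * (√κ * r) ^ m) * (vb (E (m + 1)) / 2) ≤
        (4 * N * √κ ^ (m + 1)) * (vb (E (m + 1)) / 2) := by
      calc _ = (P.card : ℝ) * (κ * (1 - κ) / c * (√κ * r) ^ m * (vb (E (m + 1)) / 2)) := by ring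
        _ ≤ N * (a ^ (m + 1) * vb (E (m + 1))) := h1
        _ ≤ N * (2 * √κ ^ (m + 1) * vb (E (m + 1))) := by
            apply mul_le_mul_of_nonneg_left _ hN0
            exact mul_le_mul_of_nonneg_right ha4 hv.le
        _ = _ := by ring
    exact le_of_mul_le_mul_right h3 (by positivity)
  have e1 : κ * (1 - κ) / c * (√κ * r) ^ m = √κ ^ (m + 1) * (√κ * r ^ (m + 1 + 1)) / c := by
    have : κ = √κ * √κ := (Real.mul_self_sqrt hκ0.le).symm
    rw [hκr]
    nth_rewrite 1 [this]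
    rw [mul_pow]
    ring
  rw [e1] at h2
  rw [← hPc]
  have h3 : (P.card : ℝ) * (√κ * r ^ (m + 1 + 1)) * √κ ^ (m + 1) ≤ 4 * c * N * √κ ^ (m + 1) := by
    have h4 : (P.card : ℝ) * (√κ ^ (m + 1) * (√κ * r ^ (m + 1 + 1)) / c) =
        (P.card : ℝ) * (√κ * r ^ (m + 1 + 1)) * √κ ^ (m + 1) / c := by ring
    rw [h4, div_le_iff₀ hn0] at h2
    linarith
  exact le_of_mul_le_mul_right h3 (by positivity)

end Run7.h838.KO
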