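import Mathlib

/-! Counting integer vectors with small `ℓ¹` norm and small support. -/

open Finset

namespace Run7.h838.KO

/-- weights -/
noncomputable def wt (s t : ℝ) (j : ℤ) : ℝ := if j = 0 then 1 else t * s ^ j.natAbs

lemma wt_nonneg {s t : ℝ} (hs : 0 ≤ s) (ht : 0 ≤ t) (j : ℤ) : 0 ≤ wt s t j := by
  unfold wt
  split_ifs <;> positivity

lemma sum_wt {s t : ℝ} (hs : 0 ≤ s) (hs1 : s < 1) (ht : 0 ≤ t) (M : ℕ) :
    ∑ j ∈ Icc (-(M : ℤ)) M, wt s t j ≤ 1 + 2 * t * (s / (1 - s)) - 2 * t * s ^ (M + 1) / (1 - s) := by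
  have h1s : 0 < 1 - s := by linarith
  induction M with
  | zero =>
    simp only [Nat.cast_zero, neg_zero, Icc_self, sum_singleton, zero_add, pow_one]
    unfold wt
    rw [if_pos rfl]
    apply le_of_eq
    field_simp
    ring
  | succ M ih =>
    have e1 : Icc (-((M + 1 : ℕ) : ℤ)) ((M + 1 : ℕ) : ℤ) =
        insert ((M + 1 : ℕ) : ℤ) (insert (-((M + 1 : ℕ) : ℤ)) (Icc (-(M : ℤ)) M)) := by
      ext j
      simp only [mem_Icc, mem_insert]
      push_cast
      omega
    rw [e1, sum_insert, sum_insert]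
    · have e2 : wt s t ((M + 1 : ℕ) : ℤ) = t * s ^ (M + 1) := by
        unfold wt
        rw [if_neg (by push_cast; omega), Int.natAbs_natCast]
      have e3 : wt s t (-((M + 1 : ℕ) : ℤ)) = t * s ^ (M + 1) := by
        unfold wt
        rw [if_neg (by push_cast; omega), Int.natAbs_neg, Int.natAbs_natCast]
      rw [e2, e3]
      have e4 : 2 * t * s ^ (M + 1 + 1) / (1 - s) = 2 * t * s ^ (M + 1) / (1 - s) -
          2 * (t * s ^ (M + 1)) := by
        field_simp
        ring
      rw [e4]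
      linarith
    · rw [mem_Icc]
      push_cast
      omega
    · rw [mem_insert, mem_Icc]
      push_cast
      omega

/-- the number of integer vectors with `ℓ¹` norm at most `S` and at most `K` nonzero entries -/
lemma count {n : ℕ} (F : Finset (Fin n → ℤ)) {s t S K : ℝ} (hs : 0 < s) (hs1 : s < 1) (ht : 0 < t)
    (ht1 : t ≤ 1) (h1 : ∀ k ∈ F, ((∑ i, |k i| : ℤ) : ℝ) ≤ S)
    (h2 : ∀ k ∈ F, ((univ.filter (fun i => k i ≠ 0)).card : ℝ) ≤ K) :
    F.card * (s ^ S * t ^ K) ≤ (1 + 2 * t * (s / (1 - s))) ^ n := by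
  classical
  have h1s : 0 < 1 - s := by linarith
  -- a common bound
  obtain ⟨M, hM⟩ : ∃ M : ℕ, ∀ k ∈ F, ∀ i, |k i| ≤ M := by
    refine ⟨F.sup (fun k => (∑ i, |k i|).toNat), fun k hk i => ?_⟩
    have e1 : |k i| ≤ ∑ i, |k i| :=
      single_le_sum (f := fun i => |k i|) (fun j _ => abs_nonneg _) (mem_univ i)
    have e2 : (∑ i, |k i|).toNat ≤ F.sup (fun k => (∑ i, |k i|).toNat) :=
      le_sup (f := fun k : Fin n → ℤ => (∑ i, |k i|).toNat) hk
    have e3 : ∑ i, |k i| ≤ ((∑ i, |k i|).toNat : ℤ) := Int.self_le_toNat _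
    have e4 : ((∑ i, |k i|).toNat : ℤ) ≤ ((F.sup (fun k => (∑ i, |k i|).toNat) : ℕ) : ℤ) := by
      exact_mod_cast e2
    exact e1.trans (e3.trans e4)
  have hsub : F ⊆ Fintype.piFinset (fun _ : Fin n => Icc (-(M : ℤ)) M) := by
    intro k hk
    rw [Fintype.mem_piFinset]
    intro i
    rw [mem_Icc]
    exact abs_le.1 (hM k hk i)
  have h3 : ∀ k ∈ F, s ^ S * t ^ K ≤ ∏ i, wt s t (k i) := by
    intro k hk
    have e1 : ∏ i, wt s t (k i) = s ^ (∑ i, (k i).natAbs) *
        t ^ (univ.filter (fun i => k i ≠ 0)).card := by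
      have : ∀ i, wt s t (k i) = s ^ (k i).natAbs * (if k i ≠ 0 then t else 1) := by
        intro i
        unfold wt
        by_cases h : k i = 0
        · simp [h]
        · rw [if_neg h, if_pos h]; ring
      rw [prod_congr rfl (fun i _ => this i), prod_mul_distrib, prod_pow_eq_pow_sum,
        ← prod_filter, prod_const]
    rw [e1]
    have e2 : ((∑ i, (k i).natAbs : ℕ) : ℝ) ≤ S := by
      have := h1 k hk
      have e3 : ((∑ i, (k i).natAbs : ℕ) : ℤ) = ∑ i, |k i| := by
        push_cast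
        rfl
      have e4 : ((∑ i, (k i).natAbs : ℕ) : ℝ) = ((∑ i, |k i| : ℤ) : ℝ) := by
        rw [← e3, Int.cast_natCast]
      rw [e4]; exact this
    rw [← Real.rpow_natCast, ← Real.rpow_natCast]
    apply mul_le_mul
    · exact Real.rpow_le_rpow_of_exponent_ge hs hs1.le e2
    · exact Real.rpow_le_rpow_of_exponent_ge ht ht1 (h2 k hk)
    · positivity
    · positivity
  calc F.card * (s ^ S * t ^ K) ≤ ∑ k ∈ F, ∏ i, wt s t (k i) := by
        rw [← nsmul_eq_mul]
        exact card_nsmul_le_sum _ _ _ h3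
    _ ≤ ∑ k ∈ Fintype.piFinset (fun _ : Fin n => Icc (-(M : ℤ)) M), ∏ i, wt s t (k i) := by
        apply sum_le_sum_of_subset_of_nonneg hsub
        intro k _ _
        exact prod_nonneg fun i _ => wt_nonneg hs.le ht.le _
    _ = (∑ j ∈ Icc (-(M : ℤ)) M, wt s t j) ^ n := by
        rw [← Finset.prod_univ_sum (fun _ : Fin n => Icc (-(M : ℤ)) M) (fun _ j => wt s t j)]
        rw [prod_const, card_univ, Fintype.card_fin]
    _ ≤ _ := by
        apply pow_le_pow_left₀ (sum_nonneg fun j _ => wt_nonneg hs.le ht.le _)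
        refine (sum_wt hs.le hs1 ht.le M).trans ?_
        have : 0 ≤ 2 * t * s ^ (M + 1) / (1 - s) := by positivity
        linarith

end Run7.h838.KO
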