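import Pool.Agent.Run7.h838.KO.Cap

/-! Codes of permuted integer vectors: definitions and basic properties. -/

open Finset
open scoped InnerProductSpace

namespace Run7.h838.KO

open Pool.Agent.H818R2

/-- `C` is a set of nonzero integer vectors of length `n` with entries of absolute value at most
`m` which are permutations of one another, with mutual angles at least `θ`. -/
def IsOrbitCode (n m : ℕ) (θ : ℝ) (C : Finset (Fin n → ℤ)) : Prop :=
  (∀ x ∈ C, x ≠ 0 ∧ ∀ i, |x i| ≤ m) ∧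
  (∀ x ∈ C, ∀ y ∈ C, ∃ σ : Equiv.Perm (Fin n), y = x ∘ σ) ∧
  ∀ x ∈ C, ∀ y ∈ C, x ≠ y → ((∑ i, x i * y i : ℤ) : ℝ) ≤ Real.cos θ * ((∑ i, x i ^ 2 : ℤ) : ℝ)

/-- the largest size of such a set -/
noncomputable def orbMax (n m : ℕ) (θ : ℝ) : ℕ :=
  sSup {k | ∃ C : Finset (Fin n → ℤ), IsOrbitCode n m θ C ∧ C.card = k}

/-- `(1/n) log_2` of the largest size -/
noncomputable def orbRate (θ : ℝ) (m n : ℕ) : ℝ := Real.logb 2 (orbMax n m θ) / n

lemma orb_bdd (n m : ℕ) (θ : ℝ) :
    BddAbove {k | ∃ C : Finset (Fin n → ℤ), IsOrbitCode n m θ C ∧ C.card = k} := by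
  classical
  refine ⟨(Fintype.piFinset (fun _ : Fin n => Finset.Icc (-(m : ℤ)) m)).card, ?_⟩
  rintro k ⟨C, hC, rfl⟩
  apply card_le_card
  intro x hx
  rw [Fintype.mem_piFinset]
  intro i
  rw [mem_Icc]
  exact abs_le.1 ((hC.1 x hx).2 i)

lemma orb_nonempty (n m : ℕ) (θ : ℝ) :
    {k | ∃ C : Finset (Fin n → ℤ), IsOrbitCode n m θ C ∧ C.card = k}.Nonempty :=
  ⟨0, ∅, ⟨by simp, by simp, by simp⟩, by simp⟩

lemma le_orbMax {n m : ℕ} {θ : ℝ} {C : Finset (Fin n → ℤ)} (hC : IsOrbitCode n m θ C) :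
    C.card ≤ orbMax n m θ := le_csSup (orb_bdd n m θ) ⟨C, hC, rfl⟩

lemma orbMax_pos {n m : ℕ} (hn : 0 < n) (hm : 0 < m) (θ : ℝ) : 1 ≤ orbMax n m θ := by
  classical
  have h : IsOrbitCode n m θ {fun _ => 1} := by
    refine ⟨?_, ?_, ?_⟩
    · intro x hx
      rw [mem_singleton] at hx
      subst hx
      refine ⟨fun h => ?_, fun i => ?_⟩
      · have := congrFun h ⟨0, hn⟩
        simp at this
      · simp only [abs_one]
        exact_mod_cast hm
    · intro x hx y hy
      rw [mem_singleton] at hx hy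
      subst hx; subst hy
      exact ⟨1, rfl⟩
    · intro x hx y hy hxy
      rw [mem_singleton] at hx hy
      exact absurd (hx.trans hy.symm) hxy
  exact le_orbMax h

lemma sum_sq_perm {n : ℕ} {x y : Fin n → ℤ} {σ : Equiv.Perm (Fin n)} (h : y = x ∘ σ) :
    ∑ i, y i ^ 2 = ∑ i, x i ^ 2 := by
  rw [h]
  exact Equiv.sum_comp σ (fun i => x i ^ 2)

/-- codes of permuted integer vectors are spherical codes -/
theorem orb_le_sph {n : ℕ} (m : ℕ) (hn : 0 < n) {θ : ℝ} (hs : 0 < Real.sin (θ / 2)) :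
    orbMax n m θ ≤ sphMax n θ := by
  classical
  have : NeZero n := ⟨hn.ne'⟩
  apply csSup_le (orb_nonempty n m θ)
  rintro k ⟨C, hC, rfl⟩
  rcases C.eq_empty_or_nonempty with rfl | ⟨x0, hx0⟩
  · simp
  set R : ℝ := ((∑ i, x0 i ^ 2 : ℤ) : ℝ) with hR
  have hRx : ∀ x ∈ C, ((∑ i, x i ^ 2 : ℤ) : ℝ) = R := by
    intro x hx
    obtain ⟨σ, hσ⟩ := hC.2.1 x0 hx0 x hx
    rw [sum_sq_perm hσ]
  have hRpos : 0 < R := by
    obtain ⟨i, hi⟩ := Function.ne_iff.1 (hC.1 x0 hx0).1
    have hi' : x0 i ≠ 0 := hi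
    have : 0 < ∑ i, x0 i ^ 2 := by
      apply sum_pos' (fun i _ => sq_nonneg _)
      exact ⟨i, mem_univ _, by positivity⟩
    rw [hR]; exact_mod_cast this
  have hsR : 0 < √R := Real.sqrt_pos.2 hRpos
  set f : (Fin n → ℤ) → E n := fun x => (1 / √R) • (WithLp.toLp 2 (fun i => (x i : ℝ))) with hf
  have hinner : ∀ x y : Fin n → ℤ, ⟪f x, f y⟫_ℝ = ((∑ i, x i * y i : ℤ) : ℝ) / R := by
    intro x y
    rw [hf]
    simp only [inner_smul_left, inner_smul_right, PiLp.inner_apply, RCLike.inner_apply,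
      conj_trivial]
    rw [Int.cast_sum]
    have : 1 / √R * (1 / √R * ∑ i, (y i : ℝ) * (x i : ℝ)) =
        (∑ i, (y i : ℝ) * (x i : ℝ)) / (√R * √R) := by field_simp
    rw [this, Real.mul_self_sqrt hRpos.le]
    congr 1
    apply sum_congr rfl
    intro i _
    push_cast
    ring
  have hinj : Function.Injective f := by
    intro x y hxy
    have h1 := smul_right_injective (E n) (by positivity : (1 / √R) ≠ 0) hxy
    have h2 := (WithLp.toLp_injective 2) h1
    funext i
    have := congrFun h2 i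
    exact_mod_cast this
  have hcode : IsSphCode n θ (C.image f) := by
    constructor
    · intro u hu
      obtain ⟨x, hx, rfl⟩ := mem_image.1 hu
      have h1 : ‖f x‖ ^ 2 = 1 := by
        rw [← real_inner_self_eq_norm_sq, hinner]
        have : (∑ i, x i * x i) = ∑ i, x i ^ 2 := sum_congr rfl fun i _ => by ring
        rw [this, hRx x hx, div_self hRpos.ne']
      nlinarith [norm_nonneg (f x)]
    · intro u hu v hv huv
      obtain ⟨x, hx, rfl⟩ := mem_image.1 hu
      obtain ⟨y, hy, rfl⟩ := mem_image.1 hv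
      have hxy : x ≠ y := fun h => huv (by rw [h])
      have h1 := hC.2.2 x hx y hy hxy
      rw [hRx x hx] at h1
      rw [hinner, div_le_iff₀ hRpos]
      exact h1
  have h1 := le_sphMax hs hcode
  rwa [card_image_of_injective _ hinj] at h1

/-- the composition of a word -/
def typ {n : ℕ} (m : ℕ) (w : Fin n → ℤ) : ↥(Finset.Icc (-(m : ℤ)) m) → Fin (n + 1) := fun a =>
  ⟨(univ.filter (fun i => w i = a)).card, Nat.lt_succ_of_le (by
    refine (card_le_univ _).trans ?_
    simp)⟩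

lemma typ_card (n m : ℕ) :
    Fintype.card (↥(Finset.Icc (-(m : ℤ)) m) → Fin (n + 1)) = (n + 1) ^ (2 * m + 1) := by
  rw [Fintype.card_fun, Fintype.card_fin, Fintype.card_coe, Int.card_Icc]
  congr 1
  omega

/-- words of equal composition are permutations of one another -/
lemma typ_perm {n m : ℕ} {w w' : Fin n → ℤ} (h : ∀ i, |w i| ≤ m) (h' : ∀ i, |w' i| ≤ m)
    (ht : typ m w = typ m w') : ∃ σ : Equiv.Perm (Fin n), w' = w ∘ σ := by
  classical
  have hc : ∀ c : ℤ, Nonempty ({i // w' i = c} ≃ {i // w i = c}) := by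
    intro c
    rw [← Fintype.card_eq]
    by_cases hcm : c ∈ Finset.Icc (-(m : ℤ)) m
    · have := congrArg Fin.val (congrFun ht ⟨c, hcm⟩)
      simp only [typ] at this
      rw [Fintype.card_subtype, Fintype.card_subtype]
      exact this.symm
    · have e1 : ∀ v : Fin n → ℤ, (∀ i, |v i| ≤ m) → Fintype.card {i // v i = c} = 0 := by
        intro v hv
        rw [Fintype.card_eq_zero_iff]
        refine ⟨fun i => hcm ?_⟩
        rw [← i.2, mem_Icc]
        exact abs_le.1 (hv i.1)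
      rw [e1 w h, e1 w' h']
  refine ⟨Equiv.ofFiberEquiv (fun c => Classical.choice (hc c)), ?_⟩
  funext i
  exact (Equiv.ofFiberEquiv_map (fun c => Classical.choice (hc c)) i).symm

end Run7.h838.KO
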