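import Pool.Agent.Run7.h838.KO.Defs
import Pool.Agent.Run7.h838.KO.Count

/-! Quantisation of spherical codes by permuted integer vectors. -/

open Finset
open scoped InnerProductSpace

namespace Run7.h838.KO

open Pool.Agent.H818R2

section
variable {n : ℕ} (ε A : ℝ)

/-- the scaled coordinates -/
noncomputable def X (x : E n) (i : Fin n) : ℝ := √n * x i

/-- the cells of the large coordinates -/
noncomputable def kk (x : E n) (i : Fin n) : ℤ :=
  if A < |X x i| then round (X x i / (ε * A)) else 0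

/-- the rounded small coordinates -/
noncomputable def ww (x : E n) (i : Fin n) : ℤ := if A < |X x i| then 0 else round (X x i / ε)

variable {ε A}

lemma nsq (f : Fin n → ℝ) : ‖(WithLp.toLp 2 f : E n)‖ ^ 2 = ∑ i, f i ^ 2 := by
  rw [EuclideanSpace.norm_sq_eq]
  apply sum_congr rfl
  intro i _
  rw [Real.norm_eq_abs, sq_abs]

lemma nsq' (x : E n) : ‖x‖ ^ 2 = ∑ i, x i ^ 2 := by
  rw [EuclideanSpace.norm_sq_eq]
  apply sum_congr rfl
  intro i _
  rw [Real.norm_eq_abs, sq_abs]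

lemma sumX {x : E n} (hx : ‖x‖ = 1) : ∑ i, X x i ^ 2 = n := by
  unfold X
  have : ∀ i, (√n * x i) ^ 2 = n * x i ^ 2 := by
    intro i
    rw [mul_pow, Real.sq_sqrt (Nat.cast_nonneg n)]
  simp only [this]
  rw [← mul_sum, ← nsq' x, hx]
  ring

lemma abs_round_le (t : ℝ) : |((round t : ℤ) : ℝ)| ≤ |t| + 1 / 2 := by
  have h := abs_sub_round t
  have h2 := abs_sub_abs_le_abs_sub ((round t : ℤ) : ℝ) t
  rw [abs_sub_comm] at h2
  linarith

lemma big_ge {x : E n} {i : Fin n} (hε0 : 0 < ε) (hε1 : ε ≤ 1) (hA : 0 < A)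
    (h : A < |X x i|) : 1 ≤ |X x i / (ε * A)| := by
  rw [abs_div, abs_of_pos (by positivity : 0 < ε * A), le_div_iff₀ (by positivity)]
  nlinarith

lemma kk_ne {x : E n} {i : Fin n} (hε0 : 0 < ε) (hε1 : ε ≤ 1) (hA : 0 < A) :
    kk ε A x i ≠ 0 ↔ A < |X x i| := by
  unfold kk
  constructor
  · intro h
    by_contra h'
    rw [if_neg h'] at h
    exact h rfl
  · intro h
    rw [if_pos h]
    intro h0
    have h1 := big_ge hε0 hε1 hA h
    have h2 := abs_sub_round (X x i / (ε * A))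
    rw [h0, Int.cast_zero, sub_zero] at h2
    linarith

lemma kk_supp {x : E n} (hx : ‖x‖ = 1) (hε0 : 0 < ε) (hε1 : ε ≤ 1) (hA : 0 < A) :
    ((univ.filter (fun i => kk ε A x i ≠ 0)).card : ℝ) ≤ n / A ^ 2 := by
  rw [le_div_iff₀ (by positivity), ← sumX hx, ← nsmul_eq_mul]
  calc (univ.filter (fun i => kk ε A x i ≠ 0)).card • A ^ 2 ≤
        ∑ i ∈ univ.filter (fun i => kk ε A x i ≠ 0), X x i ^ 2 := by
        apply card_nsmul_le_sum
        intro i hi
        rw [mem_filter, kk_ne hε0 hε1 hA] at hi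
        rw [← sq_abs (X x i)]
        exact pow_le_pow_left₀ hA.le hi.2.le 2
    _ ≤ _ := sum_le_sum_of_subset_of_nonneg (filter_subset _ _) (fun i _ _ => sq_nonneg _)

lemma kk_sum {x : E n} (hx : ‖x‖ = 1) (hε0 : 0 < ε) (hε1 : ε ≤ 1) (hA : 0 < A) :
    ((∑ i, |kk ε A x i| : ℤ) : ℝ) ≤ 3 / 2 * n / (ε * A ^ 2) := by
  rw [le_div_iff₀ (by positivity), ← sumX hx, Int.cast_sum, sum_mul, mul_sum]
  apply sum_le_sum
  intro i _
  unfold kk
  by_cases h : A < |X x i|
  · rw [if_pos h, Int.cast_abs]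
    have h1 := big_ge hε0 hε1 hA h
    have h2 := abs_round_le (X x i / (ε * A))
    have h3 : |((round (X x i / (ε * A)) : ℤ) : ℝ)| ≤ 3 / 2 * |X x i / (ε * A)| := by linarith
    calc |((round (X x i / (ε * A)) : ℤ) : ℝ)| * (ε * A ^ 2) ≤
          3 / 2 * |X x i / (ε * A)| * (ε * A ^ 2) :=
          mul_le_mul_of_nonneg_right h3 (by positivity)
      _ = 3 / 2 * (|X x i| * A) := by
          rw [abs_div, abs_of_pos (by positivity : 0 < ε * A)]
          field_simp
      _ ≤ 3 / 2 * X x i ^ 2 := by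
          rw [← sq_abs (X x i)]
          nlinarith [abs_nonneg (X x i)]
  · rw [if_neg h]
    simp only [abs_zero, Int.cast_zero, zero_mul]
    positivity

lemma ww_le {m : ℕ} (hε0 : 0 < ε) (x : E n) (i : Fin n) : |ww ε (m * ε) x i| ≤ m := by
  unfold ww
  split_ifs with h
  · simp
  · rw [not_lt] at h
    have h1 : |X x i / ε| ≤ m := by
      rw [abs_div, abs_of_pos hε0, div_le_iff₀ hε0]
      exact h
    have h2 := abs_round_le (X x i / ε)
    have h3 : ((|round (X x i / ε)| : ℤ) : ℝ) < ((m + 1 : ℤ) : ℝ) := by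
      rw [Int.cast_abs]
      push_cast
      linarith
    have h4 : |round (X x i / ε)| < (m : ℤ) + 1 := by exact_mod_cast h3
    omega

/-- two points with the same cells have well separated words -/
lemma sep_words {x y : E n} {δ δ' : ℝ} (hx : ‖x‖ = 1) (hy : ‖y‖ = 1) (hε0 : 0 < ε)
    (hε1 : ε ≤ 1) (hA : 0 < A) (hδ0 : 0 < δ) (hδ2 : δ ≤ 2) (hδ' : δ + 3 * ε ≤ δ')
    (hxy : δ' ≤ ‖x - y‖) (hk : kk ε A x = kk ε A y) :
    δ ^ 2 * ((∑ i, ww ε A x i ^ 2 : ℤ) : ℝ) ≤ ((∑ i, (ww ε A x i - ww ε A y i) ^ 2 : ℤ) : ℝ) ∧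
    (0 < n → 0 < ∑ i, (ww ε A x i - ww ε A y i) ^ 2) := by
  classical
  set S : ℝ := √n with hS
  have hS0 : 0 ≤ S := Real.sqrt_nonneg _
  have hS2 : S ^ 2 = n := Real.sq_sqrt (Nat.cast_nonneg n)
  have hbig : ∀ i, A < |X x i| ↔ A < |X y i| := by
    intro i
    rw [← kk_ne (ε := ε) hε0 hε1 hA, ← kk_ne (ε := ε) hε0 hε1 hA, hk]
  set u : E n := WithLp.toLp 2 (fun i => if A < |X x i| then 0 else X x i) with hu
  set v : E n := WithLp.toLp 2 (fun i => if A < |X y i| then 0 else X y i) with hv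
  set a : E n := WithLp.toLp 2 (fun i => ε * (ww ε A x i : ℝ)) with ha
  set b : E n := WithLp.toLp 2 (fun i => ε * (ww ε A y i : ℝ)) with hb
  -- rounding errors
  have hround : ∀ z : E n, ∀ i, (ε * (ww ε A z i : ℝ) - (if A < |X z i| then 0 else X z i)) ^ 2 ≤
      (ε / 2) ^ 2 := by
    intro z i
    unfold ww
    split_ifs with h
    · simp only [Int.cast_zero, mul_zero, sub_zero]
      rw [zero_pow two_ne_zero]
      positivity
    · have h1 := abs_sub_round (X z i / ε)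
      have h2 : ε * ((round (X z i / ε) : ℤ) : ℝ) - X z i =
          -(ε * (X z i / ε - ((round (X z i / ε) : ℤ) : ℝ))) := by
        field_simp
        ring
      rw [h2, neg_sq, mul_pow, div_pow, ← sq_abs (X z i / ε - _)]
      have h3 : |X z i / ε - ((round (X z i / ε) : ℤ) : ℝ)| ^ 2 ≤ (1 / 2) ^ 2 :=
        pow_le_pow_left₀ (abs_nonneg _) h1 2
      nlinarith [sq_nonneg ε]
  have hau : ‖a - u‖ ≤ ε / 2 * S := by
    apply le_of_sq_le_sq _ (by positivity)
    rw [mul_pow, hS2]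
    have : a - u = WithLp.toLp 2 (fun i => ε * (ww ε A x i : ℝ) -
        (if A < |X x i| then 0 else X x i)) := rfl
    rw [this, nsq]
    calc ∑ i, (ε * (ww ε A x i : ℝ) - (if A < |X x i| then 0 else X x i)) ^ 2 ≤
          ∑ _i : Fin n, (ε / 2) ^ 2 := sum_le_sum fun i _ => hround x i
      _ = _ := by rw [sum_const, card_univ, Fintype.card_fin, nsmul_eq_mul, mul_comm]
  have hbv : ‖b - v‖ ≤ ε / 2 * S := by
    apply le_of_sq_le_sq _ (by positivity)
    rw [mul_pow, hS2]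
    have : b - v = WithLp.toLp 2 (fun i => ε * (ww ε A y i : ℝ) -
        (if A < |X y i| then 0 else X y i)) := rfl
    rw [this, nsq]
    calc ∑ i, (ε * (ww ε A y i : ℝ) - (if A < |X y i| then 0 else X y i)) ^ 2 ≤
          ∑ _i : Fin n, (ε / 2) ^ 2 := sum_le_sum fun i _ => hround y i
      _ = _ := by rw [sum_const, card_univ, Fintype.card_fin, nsmul_eq_mul, mul_comm]
  have hunorm : ‖u‖ ≤ S := by
    apply le_of_sq_le_sq _ hS0
    rw [hS2, nsq, ← sumX hx]
    apply sum_le_sum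
    intro i _
    split_ifs
    · simp only [ne_eq, OfNat.ofNat_ne_zero, not_false_eq_true, zero_pow]
      positivity
    · exact le_refl _
  -- the distance of the small parts
  have huv : S * (δ' - ε) ≤ ‖u - v‖ := by
    apply le_of_sq_le_sq _ (norm_nonneg _)
    have e1 : u - v = WithLp.toLp 2 (fun i => (if A < |X x i| then 0 else X x i) -
        (if A < |X y i| then 0 else X y i)) := rfl
    have e2 : ∑ i, (X x i - X y i) ^ 2 = n * ‖x - y‖ ^ 2 := by
      rw [nsq', mul_sum]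
      apply sum_congr rfl
      intro i _
      unfold X
      rw [← mul_sub, mul_pow, Real.sq_sqrt (Nat.cast_nonneg n)]
      rfl
    have e3 : ∑ i, (X x i - X y i) ^ 2 ≤ ∑ i, ((if A < |X x i| then 0 else X x i) -
        (if A < |X y i| then 0 else X y i)) ^ 2 + ε ^ 2 * ∑ i, X x i ^ 2 := by
      rw [mul_sum, ← sum_add_distrib]
      apply sum_le_sum
      intro i _
      by_cases h : A < |X x i|
      · have h' := (hbig i).1 h
        rw [if_pos h, if_pos h', sub_zero]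
        have hki := congrFun hk i
        unfold kk at hki
        rw [if_pos h, if_pos h'] at hki
        have h1 := abs_sub_round (X x i / (ε * A))
        have h2 := abs_sub_round (X y i / (ε * A))
        rw [hki] at h1
        have h3 : |X x i / (ε * A) - X y i / (ε * A)| ≤ 1 := by
          rw [abs_le] at h1 h2 ⊢
          constructor <;> linarith
        rw [← sub_div, abs_div, abs_of_pos (by positivity : 0 < ε * A),
          div_le_iff₀ (by positivity), one_mul] at h3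
        have h4 : |X x i - X y i| ^ 2 ≤ (ε * |X x i|) ^ 2 := by
          apply pow_le_pow_left₀ (abs_nonneg _)
          nlinarith
        rw [sq_abs, mul_pow, sq_abs] at h4
        simp only [ne_eq, OfNat.ofNat_ne_zero, not_false_eq_true, zero_pow, zero_add]
        exact h4
      · have h' : ¬ A < |X y i| := fun h' => h ((hbig i).2 h')
        rw [if_neg h, if_neg h']
        have : 0 ≤ ε ^ 2 * X x i ^ 2 := by positivity
        linarith
    rw [e2, sumX hx] at e3
    rw [e1, nsq, mul_pow, hS2]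
    have h1 : δ' ^ 2 ≤ ‖x - y‖ ^ 2 := pow_le_pow_left₀ (by linarith) hxy 2
    have h2 : (n : ℝ) * δ' ^ 2 ≤ n * ‖x - y‖ ^ 2 := mul_le_mul_of_nonneg_left h1 (Nat.cast_nonneg n)
    have h3 : (n : ℝ) * (δ' - ε) ^ 2 ≤ n * (δ' ^ 2 - ε ^ 2) := by
      apply mul_le_mul_of_nonneg_left _ (Nat.cast_nonneg n)
      nlinarith
    nlinarith
  have hab : S * (δ' - 2 * ε) ≤ ‖a - b‖ := by
    have h1 : ‖u - v‖ ≤ ‖a - b‖ + ‖a - u‖ + ‖b - v‖ := by
      have : u - v = (a - b) - (a - u) + (b - v) := by abel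
      rw [this]
      calc ‖(a - b) - (a - u) + (b - v)‖ ≤ ‖(a - b) - (a - u)‖ + ‖b - v‖ := norm_add_le _ _
        _ ≤ _ := by
            have := norm_sub_le (a - b) (a - u)
            linarith
    nlinarith
  have hanorm : ‖a‖ ≤ S * (1 + ε / 2) := by
    have : a = u + (a - u) := by abel
    rw [this]
    have h1 := norm_add_le u (a - u)
    nlinarith
  have key : δ * ‖a‖ ≤ ‖a - b‖ := by
    calc δ * ‖a‖ ≤ δ * (S * (1 + ε / 2)) := mul_le_mul_of_nonneg_left hanorm hδ0.le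
      _ = S * (δ + δ * ε / 2) := by ring
      _ ≤ S * (δ' - 2 * ε) := by
          apply mul_le_mul_of_nonneg_left _ hS0
          nlinarith
      _ ≤ _ := hab
  have ena : ‖a‖ ^ 2 = ε ^ 2 * ((∑ i, ww ε A x i ^ 2 : ℤ) : ℝ) := by
    rw [nsq, Int.cast_sum, mul_sum]
    apply sum_congr rfl
    intro i _
    push_cast
    ring
  have enab : ‖a - b‖ ^ 2 = ε ^ 2 * ((∑ i, (ww ε A x i - ww ε A y i) ^ 2 : ℤ) : ℝ) := by
    have : a - b = WithLp.toLp 2 (fun i => ε * (ww ε A x i : ℝ) - ε * (ww ε A y i : ℝ)) := rfl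
    rw [this, nsq, Int.cast_sum, mul_sum]
    apply sum_congr rfl
    intro i _
    push_cast
    ring
  constructor
  · have h1 : (δ * ‖a‖) ^ 2 ≤ ‖a - b‖ ^ 2 := pow_le_pow_left₀ (by positivity) key 2
    rw [mul_pow, ena, enab] at h1
    have h2 : ε ^ 2 * (δ ^ 2 * ((∑ i, ww ε A x i ^ 2 : ℤ) : ℝ)) ≤
        ε ^ 2 * ((∑ i, (ww ε A x i - ww ε A y i) ^ 2 : ℤ) : ℝ) := by
      calc _ = δ ^ 2 * (ε ^ 2 * ((∑ i, ww ε A x i ^ 2 : ℤ) : ℝ)) := by ring
        _ ≤ _ := h1
    exact le_of_mul_le_mul_left h2 (by positivity)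
  · intro hn
    have hSpos : 0 < S := Real.sqrt_pos.2 (by exact_mod_cast hn)
    have h1 : 0 < ‖a - b‖ := lt_of_lt_of_le (mul_pos hSpos (by linarith)) hab
    have h2 : 0 < ‖a - b‖ ^ 2 := by positivity
    rw [enab] at h2
    have h3 : 0 < ((∑ i, (ww ε A x i - ww ε A y i) ^ 2 : ℤ) : ℝ) := by
      by_contra h
      rw [not_lt] at h
      nlinarith [sq_nonneg ε, pow_pos hε0 2]
    exact_mod_cast h3

end

/-- **quantisation** -/
theorem quant {n m : ℕ} (hn : 0 < n) (hm : 0 < m) {θ θ' ε : ℝ} (hε0 : 0 < ε) (hε1 : ε ≤ 1)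
    (hA1 : 1 ≤ m * ε) (hs : 0 < Real.sin (θ / 2))
    (hsθ : 2 * Real.sin (θ / 2) + 3 * ε ≤ 2 * Real.sin (θ' / 2)) :
    (sphMax n θ' : ℝ) * (((1 + ε)⁻¹) ^ (3 / 2 * n / (ε * (m * ε) ^ 2) : ℝ) *
      (ε / (2 * (m * ε) ^ 2)) ^ (n / (m * ε) ^ 2 : ℝ)) ≤
      (1 + 1 / (m * ε) ^ 2) ^ n * (n + 1) ^ (2 * m + 1) * orbMax n m θ := by
  classical
  have : NeZero n := ⟨hn.ne'⟩
  set A : ℝ := m * ε with hA
  have hA0 : 0 < A := by linarith
  have hs' : 0 < Real.sin (θ' / 2) := by linarith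
  obtain ⟨P, hP, hPc⟩ := Nat.sSup_mem (sph_nonempty n θ') (sph_bdd hs')
  change P.card = sphMax n θ' at hPc
  have hdist : ∀ x ∈ P, ∀ y ∈ P, x ≠ y → 2 * Real.sin (θ' / 2) ≤ ‖x - y‖ := by
    intro x hx y hy hxy
    have h3 := hP.2 x hx y hy hxy
    rw [cos_eq] at h3
    have h4 := norm_sub_sq_real x y
    rw [hP.1 x hx, hP.1 y hy] at h4
    apply le_of_sq_le_sq _ (norm_nonneg _)
    nlinarith
  have hδ2 : 2 * Real.sin (θ / 2) ≤ 2 := by linarith [Real.sin_le_one (θ / 2)]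
  -- the fibres
  have hfib : ∀ c : (Fin n → ℤ) × (↥(Finset.Icc (-(m : ℤ)) m) → Fin (n + 1)),
      (P.filter (fun x => (kk ε A x, typ m (ww ε A x)) = c)).card ≤ orbMax n m θ := by
    intro c
    set Q := P.filter (fun x => (kk ε A x, typ m (ww ε A x)) = c) with hQ
    have hQP : ∀ x ∈ Q, x ∈ P := fun x hx => (mem_filter.1 hx).1
    have hQk : ∀ x ∈ Q, ∀ y ∈ Q, kk ε A x = kk ε A y ∧
        typ m (ww ε A x) = typ m (ww ε A y) := by
      intro x hx y hy
      have h1 := (mem_filter.1 hx).2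
      have h2 := (mem_filter.1 hy).2
      rw [← h2] at h1
      exact ⟨(Prod.ext_iff.1 h1).1, (Prod.ext_iff.1 h1).2⟩
    by_cases h1 : Q.card ≤ 1
    · exact h1.trans (orbMax_pos hn hm θ)
    rw [not_le, one_lt_card] at h1
    obtain ⟨x1, hx1, x2, hx2, hx12⟩ := h1
    have hsep : ∀ x ∈ Q, ∀ y ∈ Q, x ≠ y → _ := fun x hx y hy hxy =>
      sep_words (ε := ε) (A := A) (hP.1 x (hQP x hx)) (hP.1 y (hQP y hy)) hε0 hε1 hA0
        (by positivity) hδ2 hsθ (hdist x (hQP x hx) y (hQP y hy) hxy) (hQk x hx y hy).1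
    have hinj : Set.InjOn (ww ε A) (Q : Set (E n)) := by
      intro x hx y hy hxy
      by_contra hne
      have h2 := (hsep x hx y hy hne).2 hn
      rw [hxy] at h2
      simp at h2
    have hcode : IsOrbitCode n m θ (Q.image (ww ε A)) := by
      have hperm : ∀ x ∈ Q, ∀ y ∈ Q, ∃ σ : Equiv.Perm (Fin n), ww ε A y = ww ε A x ∘ σ :=
        fun x hx y hy => typ_perm (ww_le hε0 x) (ww_le hε0 y) (hQk x hx y hy).2
      refine ⟨?_, ?_, ?_⟩
      · intro w hw
        obtain ⟨x, hx, rfl⟩ := mem_image.1 hw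
        refine ⟨fun h0 => ?_, ww_le hε0 x⟩
        have hz : ∀ y ∈ Q, ww ε A y = 0 := by
          intro y hy
          obtain ⟨σ, hσ⟩ := hperm x hx y hy
          rw [hσ, h0]
          rfl
        exact hx12 (hinj hx1 hx2 ((hz x1 hx1).trans (hz x2 hx2).symm))
      · intro w hw w' hw'
        obtain ⟨x, hx, rfl⟩ := mem_image.1 hw
        obtain ⟨y, hy, rfl⟩ := mem_image.1 hw'
        exact hperm x hx y hy
      · intro w hw w' hw' hww
        obtain ⟨x, hx, rfl⟩ := mem_image.1 hw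
        obtain ⟨y, hy, rfl⟩ := mem_image.1 hw'
        have hxy : x ≠ y := fun h => hww (by rw [h])
        have h2 := (hsep x hx y hy hxy).1
        obtain ⟨σ, hσ⟩ := hperm x hx y hy
        have h3 := sum_sq_perm hσ
        have h4 : ∑ i, (ww ε A x i - ww ε A y i) ^ 2 = 2 * ∑ i, ww ε A x i ^ 2 -
            2 * ∑ i, ww ε A x i * ww ε A y i := by
          have : ∑ i, (ww ε A x i - ww ε A y i) ^ 2 = ∑ i, ww ε A x i ^ 2 + ∑ i, ww ε A y i ^ 2 -
              2 * ∑ i, ww ε A x i * ww ε A y i := by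
            rw [mul_sum, ← sum_add_distrib, ← sum_sub_distrib]
            apply sum_congr rfl
            intro i _
            ring
          rw [this, h3]
          ring
        rw [h4, Int.cast_sub, Int.cast_mul, Int.cast_mul] at h2
        rw [cos_eq]
        push_cast at h2 ⊢
        nlinarith
    have h2 := le_orbMax hcode
    rwa [card_image_of_injOn hinj] at h2
  -- the number of fibres
  have h1 := card_le_mul_card_image (f := fun x : E n => (kk ε A x, typ m (ww ε A x))) P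
    (orbMax n m θ) (fun c _ => hfib c)
  have h2 : (P.image (fun x : E n => (kk ε A x, typ m (ww ε A x)))).card ≤
      (P.image (kk ε A)).card * (n + 1) ^ (2 * m + 1) := by
    rw [← typ_card n m, ← card_univ, ← card_product]
    apply card_le_card
    intro c hc
    obtain ⟨x, hx, rfl⟩ := mem_image.1 hc
    rw [mem_product]
    exact ⟨mem_image_of_mem _ hx, mem_univ _⟩
  have h3 := count (P.image (kk ε A)) (s := (1 + ε)⁻¹) (t := ε / (2 * A ^ 2))
    (S := 3 / 2 * n / (ε * A ^ 2)) (K := n / A ^ 2) (by positivity)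
    (inv_lt_one_of_one_lt₀ (by linarith)) (by positivity) (by
      rw [div_le_one (by positivity)]
      nlinarith) (by
      intro k hk
      obtain ⟨x, hx, rfl⟩ := mem_image.1 hk
      exact kk_sum (hP.1 x hx) hε0 hε1 hA0) (by
      intro k hk
      obtain ⟨x, hx, rfl⟩ := mem_image.1 hk
      exact kk_supp (hP.1 x hx) hε0 hε1 hA0)
  have h4 : 1 + 2 * (ε / (2 * A ^ 2)) * ((1 + ε)⁻¹ / (1 - (1 + ε)⁻¹)) = 1 + 1 / A ^ 2 := by
    have e0 : 0 < 1 + ε := by linarith
    have e : 1 - (1 + ε)⁻¹ = ε * (1 + ε)⁻¹ := by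
      have : (1 + ε) * (1 + ε)⁻¹ = 1 := mul_inv_cancel₀ e0.ne'
      linarith
    have : (1 + ε)⁻¹ / (1 - (1 + ε)⁻¹) = 1 / ε := by
      rw [e]
      have h0 : (1 + ε)⁻¹ ≠ 0 := by positivity
      field_simp
    rw [this]
    field_simp
  rw [h4] at h3
  set W : ℝ := ((1 + ε)⁻¹) ^ (3 / 2 * n / (ε * A ^ 2) : ℝ) *
      (ε / (2 * A ^ 2)) ^ (n / A ^ 2 : ℝ) with hW
  have hW0 : 0 ≤ W := by positivity
  have h5 : (sphMax n θ' : ℝ) ≤ orbMax n m θ * ((P.image (kk ε A)).card * (n + 1) ^ (2 * m + 1)) := by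
    rw [← hPc]
    have h6 : P.card ≤ orbMax n m θ * ((P.image (kk ε A)).card * (n + 1) ^ (2 * m + 1)) :=
      h1.trans (Nat.mul_le_mul_left _ h2)
    exact_mod_cast h6
  calc (sphMax n θ' : ℝ) * W ≤
        orbMax n m θ * ((P.image (kk ε A)).card * (n + 1) ^ (2 * m + 1)) * W :=
        mul_le_mul_of_nonneg_right h5 hW0
    _ = orbMax n m θ * (n + 1) ^ (2 * m + 1) * ((P.image (kk ε A)).card * W) := by ring
    _ ≤ orbMax n m θ * (n + 1) ^ (2 * m + 1) * (1 + 1 / A ^ 2) ^ n :=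
        mul_le_mul_of_nonneg_left h3 (by positivity)
    _ = _ := by ring

end Run7.h838.KO
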