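import Pool.Agent.Run7.h838.KO.Quant

/-! The exponents of spherical codes and of codes of permuted integer vectors. -/

open Filter Set
open scoped Topology

namespace Run7.h838.KO

open Pool.Agent.H818R2

/-- the error bound `(5 + 5 / (2 sin (θ/2)) + 2 log m) m^(-2/3)` -/
noncomputable def err (θ : ℝ) (m : ℕ) : ℝ :=
  (5 + 5 / (2 * Real.sin (θ / 2)) + 2 * Real.log m) * (m : ℝ) ^ (-(2 / 3) : ℝ)

lemma mesh {m : ℕ} (hm : 12 ≤ m) : 0 < (m : ℝ) ^ (-(2 / 3) : ℝ) ∧
    (m : ℝ) ^ (-(2 / 3) : ℝ) ≤ 39 / 200 ∧ (m * (m : ℝ) ^ (-(2 / 3) : ℝ)) ^ 2 *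
      (m : ℝ) ^ (-(2 / 3) : ℝ) = 1 ∧
    Real.log ((m : ℝ) ^ (-(2 / 3) : ℝ)) = -(2 / 3) * Real.log m := by
  have hm' : (12 : ℝ) ≤ m := by exact_mod_cast hm
  have hm0 : (0 : ℝ) < m := by linarith
  set e : ℝ := (m : ℝ) ^ (-(2 / 3) : ℝ) with he
  have he0 : 0 < e := Real.rpow_pos_of_pos hm0 _
  have he3 : e ^ 3 = 1 / (m : ℝ) ^ 2 := by
    rw [he, ← Real.rpow_natCast, ← Real.rpow_mul hm0.le]
    have : (-(2 / 3) : ℝ) * ((3 : ℕ) : ℝ) = -((2 : ℕ) : ℝ) := by norm_num
    rw [this, Real.rpow_neg hm0.le, Real.rpow_natCast, one_div]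
  refine ⟨he0, ?_, ?_, ?_⟩
  · by_contra h
    rw [not_le] at h
    have h1 : (39 / 200 : ℝ) ^ 3 < e ^ 3 := pow_lt_pow_left₀ h (by norm_num) (by norm_num)
    rw [he3] at h1
    have h2 : 1 / (m : ℝ) ^ 2 ≤ 1 / (12 : ℝ) ^ 2 := by
      apply one_div_le_one_div_of_le (by norm_num)
      exact pow_le_pow_left₀ (by norm_num) hm' 2
    norm_num at h1 h2
    linarith
  · calc (m * e) ^ 2 * e = (m : ℝ) ^ 2 * e ^ 3 := by ring
      _ = 1 := by rw [he3]; field_simp
  · exact Real.log_rpow hm0 _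

theorem rate_close {θ : ℝ} (hθ : 0 < θ) (hθ2 : θ < Real.pi / 2) {m : ℕ} (hm : 12 ≤ m) :
    ∀ᶠ n : ℕ in atTop, codeRate θ n ≤ orbRate θ m n + err θ m := by
  have hm' : (12 : ℝ) ≤ m := by exact_mod_cast hm
  obtain ⟨he0, he1, he2, he3⟩ := mesh hm
  set e : ℝ := (m : ℝ) ^ (-(2 / 3) : ℝ) with he
  have hpi := Real.pi_pos
  have hs : 0 < Real.sin (θ / 2) := Real.sin_pos_of_pos_of_lt_pi (by linarith) (by linarith)
  set δ : ℝ := 2 * Real.sin (θ / 2) with hδ
  have hδ0 : 0 < δ := by positivity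
  have hδ1 : δ ≤ 1415 / 1000 := by
    have h1 : Real.sin (θ / 2) ≤ Real.sin (Real.pi / 4) :=
      Real.sin_le_sin_of_le_of_le_pi_div_two (by linarith) (by linarith) (by linarith)
    rw [Real.sin_pi_div_four] at h1
    have h2 : √2 ≤ 1415 / 1000 := by
      rw [Real.sqrt_le_left (by norm_num)]
      norm_num
    linarith
  -- the second angle
  set θ' : ℝ := 2 * Real.arcsin ((δ + 3 * e) / 2) with hθ'
  have hs' : Real.sin (θ' / 2) = (δ + 3 * e) / 2 := by
    rw [hθ', mul_div_cancel_left₀ _ (two_ne_zero), Real.sin_arcsin (by linarith) (by linarith)]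
  have hss : Real.sin (θ / 2) < Real.sin (θ' / 2) := by rw [hs']; linarith
  set r : ℝ := Real.sin (θ / 2) / Real.sin (θ' / 2) with hr
  have hs0' : 0 < Real.sin (θ' / 2) := hs.trans hss
  have hr0 : 0 < r := by positivity
  have hr1 : r < 1 := by rw [hr, div_lt_one hs0']; exact hss
  have hlr : -Real.log r ≤ 3 * e / δ := by
    have : r = (1 + 3 * e / δ)⁻¹ := by
      rw [hr, hs']
      field_simp
      rw [hδ]
    rw [this, Real.log_inv, neg_neg]
    have := Real.log_le_sub_one_of_pos (show 0 < 1 + 3 * e / δ by positivity)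
    linarith
  obtain ⟨m₀, hm₀, hm7⟩ := exists_m hθ hθ2
  have hm₀' : (1 : ℝ) ≤ m₀ := by exact_mod_cast hm₀
  have hκ : 0 < √(1 - r ^ 2) := Real.sqrt_pos.2 (by nlinarith)
  have hA1 : 1 ≤ m * e := by
    have h1 : 1 ≤ (m * e) ^ 2 := by nlinarith [sq_nonneg ((m : ℝ) * e)]
    nlinarith [mul_pos (by linarith : (0 : ℝ) < m) he0]
  have hl2 : 0 < Real.log 2 := Real.log_pos (by norm_num)
  -- the error term
  set c : ℝ := Real.log (32 * m₀ / √(1 - r ^ 2)) with hc
  have htend : Tendsto (fun n : ℕ => (c / Real.log 2) / (n : ℝ) + (2 * m + 2) *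
      (Real.logb 2 (4 * ((n : ℝ) + 1)) / n)) atTop (𝓝 (0 + (2 * m + 2) * 0)) := by
    apply Tendsto.add
    · exact tendsto_const_nhds.div_atTop tendsto_natCast_atTop_atTop
    · exact tendsto_logb_div.const_mul _
  rw [mul_zero, add_zero] at htend
  filter_upwards [eventually_ge_atTop 5, htend.eventually (gt_mem_nhds
    (show 0 < 39 / 100 * e by positivity))] with n hn hne
  have hn' : (5 : ℝ) ≤ n := by exact_mod_cast hn
  obtain ⟨k, rfl⟩ : ∃ k, n = k + 1 := ⟨n - 1, by omega⟩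
  have h1 := sphMax_succ_le hθ hθ2 hm₀ hm7 (n := k) (by omega)
  have h2 := angle_shift (n := k) (by omega) hs hss hr
  have h3 := quant (n := k + 1) (m := m) (θ := θ) (θ' := θ') (ε := e) (by omega) (by omega) he0
    (by linarith) hA1 hs (by rw [hs']; linarith)
  set W : ℝ := ((1 + e)⁻¹) ^ (3 / 2 * ((k + 1 : ℕ) : ℝ) / (e * (m * e) ^ 2) : ℝ) *
      (e / (2 * (m * e) ^ 2)) ^ (((k + 1 : ℕ) : ℝ) / (m * e) ^ 2 : ℝ) with hW
  have hme : (m * e) ^ 2 = 1 / e := by
    rw [eq_div_iff he0.ne']; exact he2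
  have hW0 : 0 < W := by positivity
  set N : ℝ := ((k + 1 : ℕ) : ℝ) with hN
  have hN0 : 0 < N := by linarith
  have hlW : -Real.log W ≤ N * (3 / 2 * e + e * (Real.log 2 + 4 / 3 * Real.log m)) := by
    rw [hW, hme, Real.log_mul (by positivity) (by positivity), Real.log_rpow (by positivity),
      Real.log_rpow (by positivity), Real.log_inv]
    have e1 : 3 / 2 * N / (e * (1 / e)) = 3 / 2 * N := by field_simp
    have e2 : e / (2 * (1 / e)) = e ^ 2 / 2 := by field_simp
    have e3 : N / (1 / e) = N * e := by field_simp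
    rw [e1, e2, e3, Real.log_div (by positivity) (by norm_num), Real.log_pow, he3]
    have e4 := Real.log_le_sub_one_of_pos (show 0 < 1 + e by positivity)
    have e5 : 3 / 2 * N * Real.log (1 + e) ≤ 3 / 2 * N * e :=
      mul_le_mul_of_nonneg_left (by linarith) (by positivity)
    push_cast
    nlinarith
  -- combine
  have h1' : (sphMax (k + 1) θ : ℝ) ≤ 8 * m₀ * sphMax k θ := by exact_mod_cast h1
  have h4 : (sphMax (k + 1) θ : ℝ) * (√(1 - r ^ 2) * r ^ (k + 1) * W) ≤
      32 * m₀ * (N + 1) * ((1 + e) ^ (k + 1) * (N + 1) ^ (2 * m + 1) * orbMax (k + 1) m θ) := by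
    calc (sphMax (k + 1) θ : ℝ) * (√(1 - r ^ 2) * r ^ (k + 1) * W) ≤
          8 * m₀ * sphMax k θ * (√(1 - r ^ 2) * r ^ (k + 1) * W) :=
          mul_le_mul_of_nonneg_right h1' (by positivity)
      _ = 8 * m₀ * (sphMax k θ * (√(1 - r ^ 2) * r ^ (k + 1))) * W := by ring
      _ ≤ 8 * m₀ * (4 * k * sphMax (k + 1) θ') * W := by
          apply mul_le_mul_of_nonneg_right _ hW0.le
          exact mul_le_mul_of_nonneg_left h2 (by positivity)
      _ = 32 * m₀ * k * (sphMax (k + 1) θ' * W) := by ring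
      _ ≤ 32 * m₀ * (N + 1) * (sphMax (k + 1) θ' * W) := by
          apply mul_le_mul_of_nonneg_right _ (by positivity)
          apply mul_le_mul_of_nonneg_left _ (by positivity)
          rw [hN]; push_cast; linarith
      _ ≤ 32 * m₀ * (N + 1) * ((1 + 1 / (m * e) ^ 2) ^ (k + 1) * (N + 1) ^ (2 * m + 1) *
            orbMax (k + 1) m θ) := by
          apply mul_le_mul_of_nonneg_left h3 (by positivity)
      _ = _ := by
          rw [hme, one_div_one_div]
  have hA0 : (0 : ℝ) < sphMax (k + 1) θ := sphMax_pos (by omega) hs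
  have hO0 : (0 : ℝ) < orbMax (k + 1) m θ := by
    exact_mod_cast orbMax_pos (n := k + 1) (m := m) (by omega) (by omega) θ
  have h5 := Real.log_le_log (by positivity) h4
  clear_value W
  have eL : Real.log ((sphMax (k + 1) θ : ℝ) * (√(1 - r ^ 2) * r ^ (k + 1) * W)) =
      Real.log (sphMax (k + 1) θ) + (Real.log (√(1 - r ^ 2)) + ((k + 1 : ℕ) : ℝ) * Real.log r +
        Real.log W) := by
    rw [Real.log_mul hA0.ne' (by positivity), Real.log_mul (by positivity) hW0.ne',
      Real.log_mul hκ.ne' (by positivity), Real.log_pow]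
  have eR : Real.log (32 * m₀ * (N + 1) * ((1 + e) ^ (k + 1) * (N + 1) ^ (2 * m + 1) *
      orbMax (k + 1) m θ)) = Real.log (32 * m₀) + Real.log (N + 1) +
        (((k + 1 : ℕ) : ℝ) * Real.log (1 + e) + ((2 * m + 1 : ℕ) : ℝ) * Real.log (N + 1) +
        Real.log (orbMax (k + 1) m θ)) := by
    rw [Real.log_mul (show (32 * (m₀ : ℝ) * (N + 1)) ≠ 0 by positivity) (by positivity),
      Real.log_mul (show (32 * (m₀ : ℝ)) ≠ 0 by positivity) (by positivity),
      Real.log_mul (show ((1 + e) ^ (k + 1) * (N + 1) ^ (2 * m + 1)) ≠ 0 by positivity) hO0.ne',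
      Real.log_mul (show ((1 + e) ^ (k + 1)) ≠ 0 by positivity) (by positivity),
      Real.log_pow, Real.log_pow]
  rw [eL, eR] at h5
  have h6 : c = Real.log (32 * m₀) - Real.log (√(1 - r ^ 2)) := by
    rw [hc, Real.log_div (by positivity) hκ.ne']
  have h7 : Real.log (1 + e) ≤ e := by
    have := Real.log_le_sub_one_of_pos (show 0 < 1 + e by positivity)
    linarith
  have h8 : Real.log (N + 1) ≤ Real.log 2 * Real.logb 2 (4 * (N + 1)) := by
    rw [Real.logb, mul_div_cancel₀ _ hl2.ne']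
    exact Real.log_le_log (by positivity) (by linarith)
  have h9 : Real.log (sphMax (k + 1) θ) ≤ Real.log (orbMax (k + 1) m θ) +
      N * (e * (5 / 2 + 3 / δ + Real.log 2 + 4 / 3 * Real.log m)) + c +
      (2 * m + 2) * (Real.log 2 * Real.logb 2 (4 * (N + 1))) := by
    have e1 : N * Real.log (1 + e) ≤ N * e := mul_le_mul_of_nonneg_left h7 hN0.le
    have e2 : N * -Real.log r ≤ N * (3 * e / δ) := mul_le_mul_of_nonneg_left hlr hN0.le
    have e3 : (2 * m + 2 : ℝ) * Real.log (N + 1) ≤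
        (2 * m + 2) * (Real.log 2 * Real.logb 2 (4 * (N + 1))) :=
      mul_le_mul_of_nonneg_left h8 (by positivity)
    have e4 : N * (e * (5 / 2 + 3 / δ + Real.log 2 + 4 / 3 * Real.log m)) = N * e +
        N * (3 * e / δ) + N * (3 / 2 * e + e * (Real.log 2 + 4 / 3 * Real.log m)) := by ring
    have e5 : ((2 * m + 1 : ℕ) : ℝ) = 2 * m + 1 := by push_cast; ring
    have e6 : (2 * m + 2 : ℝ) * Real.log (N + 1) =
        (2 * m + 1) * Real.log (N + 1) + Real.log (N + 1) := by ring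
    have e7 : N * -Real.log r = -(N * Real.log r) := by ring
    rw [e5] at h5
    change _ + (_ + N * Real.log r + _) ≤ _ + _ + (N * Real.log (1 + e) + _ + _) at h5
    rw [e6] at e3
    rw [e7] at e2
    rw [e4]
    linarith
  -- divide by `N log 2`
  have hne' : c / Real.log 2 / N + (2 * m + 2) * (Real.logb 2 (4 * (N + 1)) / N) <
      39 / 100 * e := hne
  have h10 : codeRate θ (k + 1) = Real.log (sphMax (k + 1) θ) / Real.log 2 / N := rfl
  have h11 : orbRate θ m (k + 1) = Real.log (orbMax (k + 1) m θ) / Real.log 2 / N := rfl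
  rw [h10, h11]
  have h12 : Real.log (sphMax (k + 1) θ) / Real.log 2 / N ≤
      Real.log (orbMax (k + 1) m θ) / Real.log 2 / N +
      e * (5 / 2 + 3 / δ + Real.log 2 + 4 / 3 * Real.log m) / Real.log 2 +
      (c / Real.log 2 / N + (2 * m + 2) * (Real.logb 2 (4 * (N + 1)) / N)) := by
    have := div_le_div_of_nonneg_right (div_le_div_of_nonneg_right h9 hl2.le) hN0.le
    refine this.trans (le_of_eq ?_)
    field_simp
    ring
  have hlm : 0 ≤ Real.log m := Real.log_nonneg (by linarith)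
  have hl2' : 0.6931 < Real.log 2 := by have := Real.log_two_gt_d9; linarith
  have h13 : e * (5 / 2 + 3 / δ + Real.log 2 + 4 / 3 * Real.log m) / Real.log 2 ≤
      e * (461 / 100 + 5 / δ + 2 * Real.log m) := by
    rw [div_le_iff₀ hl2, mul_assoc]
    apply mul_le_mul_of_nonneg_left _ he0.le
    have e1 : 3 / δ ≤ 5 / δ * Real.log 2 := by
      have : 0 < 1 / δ := by positivity
      have e2 : 3 / δ = 3 * (1 / δ) := by ring
      have e3 : 5 / δ = 5 * (1 / δ) := by ring
      rw [e2, e3]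
      nlinarith
    nlinarith
  have h14 : err θ m = e * (5 + 5 / δ + 2 * Real.log m) := by
    unfold err
    rw [← he, ← hδ]
    ring
  rw [h14]
  nlinarith

/-- the code rates are bounded -/
lemma orbRate_le {θ : ℝ} (hs : 0 < Real.sin (θ / 2)) {m n : ℕ} (hn : 0 < n) (hm : 0 < m) :
    0 ≤ orbRate θ m n ∧ orbRate θ m n ≤ codeRate θ n := by
  have h1 := orb_le_sph (n := n) m hn hs
  have h2 := orbMax_pos (n := n) (m := m) hn hm θ
  have hn' : (0 : ℝ) < n := by exact_mod_cast hn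
  constructor
  · unfold orbRate
    exact div_nonneg (Real.logb_nonneg (by norm_num) (by exact_mod_cast h2)) hn'.le
  · unfold orbRate codeRate
    apply div_le_div_of_nonneg_right _ hn'.le
    apply Real.logb_le_logb_of_le (by norm_num)
    · exact_mod_cast h2
    · exact_mod_cast h1

end Run7.h838.KO
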